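import Mathlib
import Pool.Agent.W307.FK.Stm
import Pool.Agent.W262.RK.MA

set_option autoImplicit false

/-!
# Project FK: the main average (part FK-MAF, by helper215)
-/

namespace Pool.Agent.W215.FK

open Finset Pool.Agent.W262.RK Pool.Agent.W307.RT Pool.Agent.W307.RS Pool.Agent.W307.FK

lemma Lk_self (k : ℕ) (i : IF k) : Lk k i i = false := by
  unfold Lk
  simp

/-- the average of the second moments -/
theorem maf_of (h1 : Pool.Agent.W307.FK.EXPF) (h2 : Pool.Agent.W307.FK.COMBF) :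
    Pool.Agent.W307.FK.MAF := by
  obtain ⟨z0, hz0⟩ := at_thm (IF 2) (fun _ => 1 / 2 ^ 2) (Lk 2) (fun _ => 1)
    (Fintype.card (Fin 3)) ((Fintype.card (Fin 3) : ℕ) : ℝ)
    (fun _ => ⟨by positivity, by norm_num⟩) (Lk_self 2) (fun _ => one_ne_zero) (fun U hU => by
      rw [sum_const, nsmul_eq_mul]
      have h3 : ((U.card : ℕ) : ℝ) ≤ ((12 : ℕ) : ℝ) := by
        exact_mod_cast h2 U hU
      push_cast at h3
      simp only [Fintype.card_fin]
      push_cast
      linarith)
  refine ⟨max z0 2, fun z hz => ?_⟩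
  obtain ⟨C, hC⟩ := hz0 z (le_trans (le_max_left _ _) hz)
  refine ⟨C, fun y hy => ?_⟩
  have hz2 : 2 ≤ z := le_trans (le_max_right _ _) hz
  rw [h1 2 (Fintype.card (Fin 3)) z y hz2]
  refine (le_trans (le_abs_self _) (hC y hy)).trans (le_of_eq ?_)
  rw [Real.rpow_natCast]

end Pool.Agent.W215.FK
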